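import Pool.Agent.P8H39.TI.Stm5

/-!
# Project TI, part LAM5
-/

set_option autoImplicit false

namespace Pool.Agent.P8H21.TI

open Finset
open Pool.Agent.P8H39.TI

/-- finite differences of binomial coefficients (as in `Pool.Agent.P8H73.TI.fdC`) -/
theorem fdC (M : ℕ) : ∀ X Y : ℕ, M ≤ Y → M ≤ X →
    ∑ u ∈ range (M + 1), (-1 : ℝ) ^ u * (M.choose u : ℝ) * ((X - u).choose Y : ℝ) =
      ((X - M).choose (Y - M) : ℝ) := by
  induction M with
  | zero => intro X Y _ _; simp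
  | succ a ih =>
    intro X Y hY hX
    have h1 : ∑ u ∈ range (a + 1 + 1), (-1 : ℝ) ^ u * ((a + 1).choose u : ℝ) * ((X - u).choose Y : ℝ) =
        ∑ u ∈ range (a + 1), (-1 : ℝ) ^ u * (a.choose u : ℝ) * ((X - u).choose Y : ℝ) -
        ∑ u ∈ range (a + 1), (-1 : ℝ) ^ u * (a.choose u : ℝ) * ((X - 1 - u).choose Y : ℝ) := by
      rw [Finset.sum_range_succ']
      have h2 : ∀ u ∈ range (a + 1), (-1 : ℝ) ^ (u + 1) * ((a + 1).choose (u + 1) : ℝ) *
          ((X - (u + 1)).choose Y : ℝ) =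
          (-1 : ℝ) ^ (u + 1) * (a.choose (u + 1) : ℝ) * ((X - (u + 1)).choose Y : ℝ) -
          (-1 : ℝ) ^ u * (a.choose u : ℝ) * ((X - 1 - u).choose Y : ℝ) := by
        intro u _
        rw [Nat.choose_succ_succ, show X - 1 - u = X - (u + 1) by omega]
        push_cast
        rw [pow_succ]
        ring
      rw [Finset.sum_congr rfl h2, Finset.sum_sub_distrib]
      have e1 := Finset.sum_range_succ
        (fun u : ℕ => (-1 : ℝ) ^ u * (a.choose u : ℝ) * ((X - u).choose Y : ℝ)) (a + 1)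
      have e2 := Finset.sum_range_succ'
        (fun u : ℕ => (-1 : ℝ) ^ u * (a.choose u : ℝ) * ((X - u).choose Y : ℝ)) (a + 1)
      rw [e1] at e2
      simp only [Nat.choose_eq_zero_of_lt (by omega : a < a + 1), Nat.cast_zero, mul_zero, zero_mul,
        add_zero, pow_zero, Nat.choose_zero_right, Nat.cast_one, one_mul, Nat.sub_zero] at e2
      rw [e2]
      simp
      ring
    rw [h1, ih X Y (by omega) (by omega), ih (X - 1) Y (by omega) (by omega)]
    obtain ⟨Z, hZ⟩ : ∃ Z, X = Z + a + 1 := ⟨X - a - 1, by omega⟩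
    obtain ⟨W, hW⟩ : ∃ W, Y = W + a + 1 := ⟨Y - a - 1, by omega⟩
    subst hZ hW
    rw [show Z + a + 1 - a = Z + 1 by omega, show W + a + 1 - a = W + 1 by omega,
      show Z + a + 1 - 1 - a = Z by omega, show Z + a + 1 - (a + 1) = Z by omega,
      show W + a + 1 - (a + 1) = W by omega, Nat.choose_succ_succ]
    push_cast
    ring

theorem neg_sub' {i e : ℕ} (h : e ≤ i) : (-1 : ℝ) ^ (i - e) = (-1) ^ (i + e) := by
  obtain ⟨d, rfl⟩ := Nat.exists_eq_add_of_le h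
  rw [Nat.add_sub_cancel_left, show e + d + e = d + 2 * e by ring, pow_add, pow_mul]
  norm_num

/-- the degrees of the star -/
noncomputable def sl (ν κ l : ℕ) : ℝ := (((ν - l).choose (ν - κ) : ℕ) : ℝ)

theorem sl_nonneg (ν κ l : ℕ) : 0 ≤ sl ν κ l := Nat.cast_nonneg _

theorem sl_anti (ν κ q : ℕ) : sl ν κ (q + 1) ≤ sl ν κ q := by
  unfold sl
  exact_mod_cast Nat.choose_le_choose (ν - κ) (by omega : ν - (q + 1) ≤ ν - q)

theorem sl_rec (ν κ u : ℕ) (hu : u + 1 ≤ ν) (hκ : κ ≤ ν) :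
    sl ν κ (u + 1) * ((ν - u : ℕ) : ℝ) = sl ν κ u * ((κ - u : ℕ) : ℝ) := by
  unfold sl
  have h := Nat.choose_mul_succ_eq (ν - (u + 1)) (ν - κ)
  rw [show ν - (u + 1) + 1 = ν - u by omega, show ν - u - (ν - κ) = κ - u by omega] at h
  exact_mod_cast h

/-- the alternating sum of the right-hand sides -/
theorem beta_eq {ν κ r : ℕ} {c : ℝ} {b : ℕ → ℝ} (h : r + κ ≤ ν) (hb : Tight ν κ r c b) :
    ∑ l ∈ range (r + 1), (-1 : ℝ) ^ l * (r.choose l : ℝ) * max (sl ν κ l) c =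
      (-1 : ℝ) ^ r * (((ν - r).choose κ : ℝ) *
        ∑ e ∈ range (r + 1), (-1 : ℝ) ^ (r - e) * (r.choose e : ℝ) * b e) := by
  have h1 : ∀ l ∈ range (r + 1), (-1 : ℝ) ^ l * (r.choose l : ℝ) * max (sl ν κ l) c =
      ∑ e ∈ range (r + 1), b e * ((-1 : ℝ) ^ l * (r.choose l : ℝ) * (l.choose e : ℝ) *
        ((ν - l).choose (ν - κ - e) : ℝ)) := by
    intro l hl
    rw [Finset.mem_range] at hl
    have h2 := hb l (by omega)
    unfold sl
    rw [← h2]
    have h3 : range (l + 1) ⊆ range (r + 1) := by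
      intro x hx
      rw [Finset.mem_range] at hx ⊢
      omega
    rw [Finset.sum_subset h3 (fun e _ he => by
      rw [Finset.mem_range] at he
      rw [Nat.choose_eq_zero_of_lt (by omega : l < e)]
      simp), Finset.mul_sum]
    refine Finset.sum_congr rfl fun e _ => ?_
    ring
  rw [Finset.sum_congr rfl h1, Finset.sum_comm, Finset.mul_sum, Finset.mul_sum]
  refine Finset.sum_congr rfl fun e he => ?_
  rw [Finset.mem_range] at he
  rw [← Finset.mul_sum]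
  have h4 : ∑ l ∈ range (r + 1), ((-1 : ℝ) ^ l * (r.choose l : ℝ) * (l.choose e : ℝ) *
        ((ν - l).choose (ν - κ - e) : ℝ)) =
      (-1 : ℝ) ^ e * (r.choose e : ℝ) * ((ν - r).choose κ : ℝ) := by
    rw [show r + 1 = e + (r - e + 1) by omega, Finset.sum_range_add]
    rw [Finset.sum_eq_zero (fun l hl => by
      rw [Finset.mem_range] at hl
      rw [Nat.choose_eq_zero_of_lt hl]
      simp), zero_add]
    have h5 := fdC (r - e) (ν - e) (ν - κ - e) (by omega) (by omega)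
    rw [show ν - e - (r - e) = ν - r by omega, show ν - κ - e - (r - e) = ν - r - κ by omega,
      Nat.choose_symm (by omega : κ ≤ ν - r)] at h5
    rw [← h5, Finset.mul_sum]
    refine Finset.sum_congr rfl fun u hu => ?_
    rw [Finset.mem_range] at hu
    have h6 := Nat.choose_mul (n := r) (k := e + u) (s := e) (by omega)
    rw [show e + u - e = u by omega] at h6
    have h7 : (r.choose (e + u) : ℝ) * ((e + u).choose e : ℝ) =
        (r.choose e : ℝ) * ((r - e).choose u : ℝ) := by exact_mod_cast h6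
    rw [show ν - (e + u) = ν - e - u by omega, pow_add]
    calc (-1 : ℝ) ^ e * (-1) ^ u * (r.choose (e + u) : ℝ) * ((e + u).choose e : ℝ) *
          ((ν - e - u).choose (ν - κ - e) : ℝ) =
          (-1 : ℝ) ^ e * (-1) ^ u * ((r.choose (e + u) : ℝ) * ((e + u).choose e : ℝ)) *
          ((ν - e - u).choose (ν - κ - e) : ℝ) := by ring
      _ = _ := by rw [h7]; ring
  rw [h4, neg_sub' (by omega : e ≤ r)]
  have h8 : (-1 : ℝ) ^ r * (-1) ^ (r + e) = (-1) ^ e := by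
    rw [← pow_add, show r + (r + e) = e + 2 * r by ring, pow_add, pow_mul]
    norm_num
  rw [← h8]
  ring

/-- alternating sums of decreasing sequences -/
theorem alt (m : ℕ) : ∀ w : ℕ → ℝ, (∀ u, u < m → w (u + 1) ≤ w u) → 0 ≤ w m →
    0 ≤ ∑ u ∈ range (m + 1), (-1 : ℝ) ^ u * w u ∧ ∑ u ∈ range (m + 1), (-1 : ℝ) ^ u * w u ≤ w 0 := by
  induction m with
  | zero => intro w _ h; simpa using h
  | succ m ih =>
    intro w hw h0
    have h1 := ih (fun u => w (u + 1)) (fun u hu => hw (u + 1) (by omega)) h0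
    rw [Finset.sum_range_succ']
    have h2 : ∑ u ∈ range (m + 1), (-1 : ℝ) ^ (u + 1) * w (u + 1) =
        - ∑ u ∈ range (m + 1), (-1 : ℝ) ^ u * w (u + 1) := by
      rw [← Finset.sum_neg_distrib]
      exact Finset.sum_congr rfl fun u _ => by rw [pow_succ]; ring
    rw [h2]
    have h3 := hw 0 (by omega)
    simp only [pow_zero, one_mul]
    constructor <;> linarith [h1.1, h1.2]

/-- the first terms -/
theorem alt3 (m : ℕ) (hm : 3 ≤ m) (w : ℕ → ℝ) (hw : ∀ u, u < m → w (u + 1) ≤ w u) (h0 : 0 ≤ w m) :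
    w 0 - w 1 + w 2 - w 3 ≤ ∑ u ∈ range (m + 1), (-1 : ℝ) ^ u * w u ∧
      ∑ u ∈ range (m + 1), (-1 : ℝ) ^ u * w u ≤ w 0 - w 1 + w 2 := by
  obtain ⟨j, rfl⟩ : ∃ j, m = j + 3 := ⟨m - 3, by omega⟩
  have h1 := alt j (fun u => w (u + 3)) (fun u hu => hw (u + 3) (by omega)) h0
  have h2 : ∑ u ∈ range (j + 3 + 1), (-1 : ℝ) ^ u * w u =
      w 0 - w 1 + w 2 - ∑ u ∈ range (j + 1), (-1 : ℝ) ^ u * w (u + 3) := by
    rw [Finset.sum_range_succ', Finset.sum_range_succ', Finset.sum_range_succ', sub_eq_add_neg (w 0 - w 1 + w 2),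
      ← Finset.sum_neg_distrib]
    have h3 : ∀ u ∈ range (j + 1), (-1 : ℝ) ^ (u + 1 + 1 + 1) * w (u + 1 + 1 + 1) =
        -((-1 : ℝ) ^ u * w (u + 3)) := by
      intro u _
      rw [pow_succ, pow_succ, pow_succ]
      ring
    rw [Finset.sum_congr rfl h3]
    norm_num
    ring
  rw [h2]
  constructor <;> linarith [h1.1, h1.2]

/-- the terms of the alternating sum -/
noncomputable def WW (ν κ r : ℕ) (c : ℝ) (u : ℕ) : ℝ := (r.choose u : ℝ) * max (sl ν κ u - c) 0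

theorem WW_nonneg (ν κ r : ℕ) (c : ℝ) (u : ℕ) : 0 ≤ WW ν κ r c u :=
  mul_nonneg (Nat.cast_nonneg _) (le_max_right _ _)

theorem WW_dec {ν κ r u : ℕ} {c : ℝ} (hu : u < r) (hν : r * κ + 1 ≤ ν) (hrν : r ≤ ν) (hκν : κ ≤ ν)
    (hc : 0 ≤ c) : ((u : ℝ) + 1) * WW ν κ r c (u + 1) ≤ WW ν κ r c u := by
  unfold WW
  rcases le_total (sl ν κ (u + 1)) c with h | h
  · rw [max_eq_right (by linarith), mul_zero, mul_zero]
    exact mul_nonneg (Nat.cast_nonneg _) (le_max_right _ _)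
  · have ha := sl_anti ν κ u
    rw [max_eq_left (by linarith), max_eq_left (by linarith)]
    have h1 := sl_rec ν κ u (by omega) hκν
    have h2 : ((u : ℝ) + 1) * (r.choose (u + 1) : ℝ) = (r.choose u : ℝ) * ((r - u : ℕ) : ℝ) := by
      have := Nat.choose_succ_right_eq r u
      have h3 : ((r.choose (u + 1) : ℝ)) * ((u : ℝ) + 1) = (r.choose u : ℝ) * ((r - u : ℕ) : ℝ) := by
        exact_mod_cast this
      linarith
    have hpos : (0 : ℝ) < ((ν - u : ℕ) : ℝ) := by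
      have : 0 < ν - u := by omega
      exact_mod_cast this
    have h4 : (r - u) * (κ - u) ≤ ν - u := by
      rcases Nat.lt_or_ge κ u with hk | hk
      · rw [show κ - u = 0 by omega, mul_zero]
        exact Nat.zero_le _
      · obtain ⟨x, rfl⟩ : ∃ x, r = u + x := ⟨r - u, by omega⟩
        obtain ⟨z, rfl⟩ : ∃ z, κ = u + z := ⟨κ - u, by omega⟩
        rw [Nat.add_sub_cancel_left, Nat.add_sub_cancel_left]
        have h5 : (u + x) * (u + z) = u * u + u * z + x * u + x * z := by ring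
        have h6 : u ≤ x * u := Nat.le_mul_of_pos_left u (by omega)
        omega
    have h4' : ((r - u : ℕ) : ℝ) * ((κ - u : ℕ) : ℝ) ≤ ((ν - u : ℕ) : ℝ) := by exact_mod_cast h4
    have h5 : ((κ - u : ℕ) : ℝ) ≤ ((ν - u : ℕ) : ℝ) := by
      have : κ - u ≤ ν - u := by omega
      exact_mod_cast this
    have hru : (0 : ℝ) ≤ ((r - u : ℕ) : ℝ) := Nat.cast_nonneg _
    have hC : (0 : ℝ) ≤ (r.choose u : ℝ) := Nat.cast_nonneg _
    have h6 : ((u : ℝ) + 1) * ((r.choose (u + 1) : ℝ) * (sl ν κ (u + 1) - c)) =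
        (r.choose u : ℝ) * (((r - u : ℕ) : ℝ) * (sl ν κ (u + 1) - c)) := by
      rw [← mul_assoc, h2]
      ring
    rw [h6]
    apply mul_le_mul_of_nonneg_left _ hC
    have h7 : ((r - u : ℕ) : ℝ) * (sl ν κ (u + 1) - c) * ((ν - u : ℕ) : ℝ) ≤
        (sl ν κ u - c) * ((ν - u : ℕ) : ℝ) := by
      have e1 : ((r - u : ℕ) : ℝ) * (sl ν κ (u + 1) - c) * ((ν - u : ℕ) : ℝ) =
          ((r - u : ℕ) : ℝ) * (sl ν κ u * ((κ - u : ℕ) : ℝ) - c * ((ν - u : ℕ) : ℝ)) := by
        rw [← h1]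
        ring
      rw [e1]
      have e2 : ((r - u : ℕ) : ℝ) * (sl ν κ u * ((κ - u : ℕ) : ℝ) - c * ((ν - u : ℕ) : ℝ)) ≤
          ((r - u : ℕ) : ℝ) * (sl ν κ u * ((κ - u : ℕ) : ℝ) - c * ((κ - u : ℕ) : ℝ)) := by
        apply mul_le_mul_of_nonneg_left _ hru
        have := mul_le_mul_of_nonneg_left h5 hc
        linarith
      refine e2.trans ?_
      have e3 : ((r - u : ℕ) : ℝ) * (sl ν κ u * ((κ - u : ℕ) : ℝ) - c * ((κ - u : ℕ) : ℝ)) =
          (((r - u : ℕ) : ℝ) * ((κ - u : ℕ) : ℝ)) * (sl ν κ u - c) := by ring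
      rw [e3, mul_comm (sl ν κ u - c)]
      exact mul_le_mul_of_nonneg_right h4' (by linarith)
    exact le_of_mul_le_mul_right h7 hpos

theorem WW_anti {ν κ r u : ℕ} {c : ℝ} (hu : u < r) (hν : r * κ + 1 ≤ ν) (hrν : r ≤ ν) (hκν : κ ≤ ν)
    (hc : 0 ≤ c) : WW ν κ r c (u + 1) ≤ WW ν κ r c u := by
  have h1 := WW_dec hu hν hrν hκν hc
  have h2 := WW_nonneg ν κ r c (u + 1)
  have h3 : (0 : ℝ) ≤ u := Nat.cast_nonneg _
  nlinarith

/-- the real inequality -/
theorem fin_ineq {ν κ r D s1 s2 X F E β : ℝ} (hκ : 3 ≤ κ) (hr : 3 ≤ r) (hν : r * κ + 1 ≤ ν)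
    (hD : 0 < D) (h1 : s1 * ν = D * κ) (h2 : s2 * (ν - 1) = s1 * (κ - 1)) (hX0 : 0 ≤ X)
    (hX : X ≤ D - r * s1 + r * (r - 1) / 2 * s2)
    (hF : 2 / 3 * (D - r * s1 + r * (r - 1) / 2 * s2) ≤ F) (hF0 : 0 < F)
    (hE : E * (ν - r) = κ * F) (hβ : (F * β) ^ 2 = X ^ 2) :
    β ^ 2 * E * D ≤ ν * (s1 - s2) ^ 2 := by
  have hν9 : 9 ≤ r * κ := by nlinarith
  have hνp : 0 < ν := by linarith
  have hν1 : 0 < ν - 1 := by linarith
  have hrν : r < ν := by nlinarith
  obtain ⟨a, ha⟩ : ∃ a, a = κ / ν := ⟨_, rfl⟩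
  obtain ⟨a', ha'⟩ : ∃ a', a' = (κ - 1) / (ν - 1) := ⟨_, rfl⟩
  have haν : a * ν = κ := by rw [ha]; field_simp
  have haν' : a' * (ν - 1) = κ - 1 := by rw [ha']; field_simp
  have ha0 : 0 < a := by rw [ha]; positivity
  have ha0' : 0 ≤ a' := by
    rw [ha']
    apply div_nonneg <;> linarith
  have hκν : κ ≤ ν := by nlinarith
  have haa : a' ≤ a := by
    rw [ha, ha', div_le_div_iff₀ hν1 hνp]
    nlinarith
  have hs1 : s1 = a * D := by
    have : s1 * ν = (a * D) * ν := by rw [h1, mul_comm D, ← haν]; ring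
    exact mul_right_cancel₀ hνp.ne' this
  have hs2 : s2 = a' * (a * D) := by
    have : s2 * (ν - 1) = (a' * (a * D)) * (ν - 1) := by
      rw [h2, hs1]
      calc a * D * (κ - 1) = a * D * (a' * (ν - 1)) := by rw [haν']
        _ = _ := by ring
    exact mul_right_cancel₀ hν1.ne' this
  have hy1 : r * a ≤ 1 := by
    have : (r * a) * ν ≤ 1 * ν := by
      calc (r * a) * ν = r * (a * ν) := by ring
        _ = r * κ := by rw [haν]
        _ ≤ 1 * ν := by linarith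
    exact le_of_mul_le_mul_right this hνp
  have hy0 : 0 ≤ r * a := by positivity
  obtain ⟨y, hy⟩ : ∃ y, y = r * a := ⟨_, rfl⟩
  obtain ⟨x, hx⟩ : ∃ x, x = 1 - r * a + r * (r - 1) / 2 * (a' * a) := ⟨_, rfl⟩
  have hDx : D - r * s1 + r * (r - 1) / 2 * s2 = D * x := by
    rw [hs1, hs2, hx]
    ring
  rw [hDx] at hX hF
  have hu0 : 0 ≤ r * (r - 1) / 2 * (a' * a) := by
    have : 0 ≤ r - 1 := by linarith
    positivity
  have hx0 : 0 ≤ x := by rw [hx]; linarith
  have hx1 : x ≤ 1 - y + y ^ 2 / 2 := by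
    rw [hx, hy]
    have e1 : (r - 1) * a' ≤ r * a := by nlinarith
    have e2 : r * (r - 1) / 2 * (a' * a) = (r * a) * ((r - 1) * a') / 2 := by ring
    rw [e2]
    nlinarith
  -- the constant
  obtain ⟨C0, hC0⟩ : ∃ C0, C0 = (κ - r * a) * (1 - a') ^ 2 := ⟨_, rfl⟩
  have ha3 : a ≤ y / 3 := by
    rw [hy]
    nlinarith
  have hyy : 0 ≤ y ∧ y ≤ 1 := ⟨by rw [hy]; exact hy0, by rw [hy]; exact hy1⟩
  have hC1 : (3 - y) ^ 3 / 9 ≤ C0 := by
    rw [hC0, ← hy]
    have e1 : (1 - y / 3) ^ 2 ≤ (1 - a') ^ 2 := by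
      apply pow_le_pow_left₀ (by linarith [hyy.2])
      linarith
    have e2 : (3 - y) ^ 3 / 9 = (3 - y) * (1 - y / 3) ^ 2 := by ring
    rw [e2]
    apply mul_le_mul (by linarith) e1 (sq_nonneg _)
    linarith [hyy.2]
  have hC2 : 3 / 2 * x ≤ C0 := by
    have e1 : 3 / 2 * (1 - y + y ^ 2 / 2) ≤ (3 - y) ^ 3 / 9 := by
      have e3 : (3 - y) ^ 3 / 9 - 3 / 2 * (1 - y + y ^ 2 / 2) =
          3 / 2 * (1 - y) + y ^ 2 * (1 / 4 - y / 9) := by ring
      have e4 : 0 ≤ 3 / 2 * (1 - y) := by linarith [hyy.2]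
      have e5 : 0 ≤ y ^ 2 * (1 / 4 - y / 9) := mul_nonneg (sq_nonneg _) (by linarith [hyy.2])
      linarith
    linarith
  -- the main inequality
  have hmain : κ * X ^ 2 * D ≤ (ν - r) * F * (ν * (s1 - s2) ^ 2) := by
    have e1 : (ν - r) * F * (ν * (s1 - s2) ^ 2) = κ * D ^ 2 * F * C0 := by
      rw [hs1, hs2, hC0]
      have e2 : (ν - r) * F * (ν * (a * D - a' * (a * D)) ^ 2) =
          (a * ν) * D ^ 2 * F * ((a * ν - r * a) * (1 - a') ^ 2) := by ring
      rw [e2, haν]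
    rw [e1]
    have e3 : κ * X ^ 2 * D ≤ κ * (D * x) ^ 2 * D := by
      have := pow_le_pow_left₀ hX0 hX 2
      gcongr
    have e4 : κ * (D * x) ^ 2 * D ≤ κ * D ^ 2 * F * C0 := by
      have e5 : D * x ^ 2 ≤ F * C0 := by
        calc D * x ^ 2 = (2 / 3 * (D * x)) * (3 / 2 * x) := by ring
          _ ≤ F * C0 := mul_le_mul hF hC2 (by positivity) hF0.le
      calc κ * (D * x) ^ 2 * D = κ * D ^ 2 * (D * x ^ 2) := by ring
        _ ≤ κ * D ^ 2 * (F * C0) := mul_le_mul_of_nonneg_left e5 (by positivity)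
        _ = _ := by ring
    exact e3.trans e4
  have hpos : 0 < (ν - r) * F := mul_pos (by linarith) hF0
  have h5 : ((ν - r) * F) * (β ^ 2 * E * D) ≤ ((ν - r) * F) * (ν * (s1 - s2) ^ 2) := by
    calc ((ν - r) * F) * (β ^ 2 * E * D) = F * β ^ 2 * D * (E * (ν - r)) := by ring
      _ = κ * (F * β) ^ 2 * D := by rw [hE]; ring
      _ = κ * X ^ 2 * D := by rw [hβ]
      _ ≤ _ := hmain
  exact le_of_mul_le_mul_left h5 hpos

/-- package LAM5 -/
theorem t_LAM5 : S_LAM5 := by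
  intro n k t c b ht htk hn hc0 hc hb
  obtain ⟨κ, rfl⟩ : ∃ κ, k = t + κ := ⟨k - t, by omega⟩
  have hκt : t + κ - t = κ := by omega
  rw [hκt] at hn hb ⊢
  have hn2 : t ≤ n := by nlinarith
  obtain ⟨ν, rfl⟩ : ∃ ν, n = t + ν := ⟨n - t, by omega⟩
  have hν0 : t + ν - t = ν := by omega
  rw [hν0] at hb hc ⊢
  rw [show t + ν - (t + κ) = ν - κ by omega] at hc ⊢
  have hκ3 : 3 ≤ κ := by omega
  have hν : (t + 1) * κ + 1 ≤ ν := by nlinarith
  have hrκ : (t + 1) + κ + 1 ≤ ν := by nlinarith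
  set r := t + 1 with hr
  have hr3 : 3 ≤ r := by omega
  -- the eigenvalue
  have hlam : lamb (t + ν) (t + κ) r b r =
      (∑ e ∈ range (r + 1), (-1 : ℝ) ^ (r - e) * (r.choose e : ℝ) * b e) ^ 2 *
        ((ν - r - 1).choose (κ - 1) : ℝ) := by
    unfold lamb
    rw [Finset.sum_range_succ, Finset.sum_eq_zero (fun i hi => by
      rw [Finset.mem_range] at hi
      rw [Nat.sub_self, Nat.choose_eq_zero_of_lt (by omega : 0 < r - i)]
      simp), zero_add]
    rw [Nat.sub_self, Nat.choose_self, Nat.choose_zero_right,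
      show t + ν - r - r = ν - r - 1 by omega, show t + κ - r = κ - 1 by omega]
    have h1 : (((ν - r - 1).choose (κ - 1) : ℕ) : ℝ) ≠ 0 := by
      exact_mod_cast (Nat.choose_pos (show κ - 1 ≤ ν - r - 1 by omega)).ne'
    rw [Nat.cast_one, mul_one, mul_one, mul_pow, pow_two (((ν - r - 1).choose (κ - 1) : ℕ) : ℝ),
      ← mul_assoc, mul_div_assoc, div_self h1, mul_one]
  rw [hlam]
  set β := ∑ e ∈ range (r + 1), (-1 : ℝ) ^ (r - e) * (r.choose e : ℝ) * b e with hβdef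
  have hβ := beta_eq (by omega) hb
  rw [← hβdef] at hβ
  -- the alternating sum
  have hbin : ∑ u ∈ range (r + 1), (-1 : ℝ) ^ u * (r.choose u : ℝ) = 0 := by
    have h2 := (Commute.all (-1 : ℝ) 1).add_pow r
    simp only [one_pow, mul_one] at h2
    rw [← h2]
    rw [neg_add_cancel, zero_pow (by omega)]
  have hX : ∑ u ∈ range (r + 1), (-1 : ℝ) ^ u * WW ν κ r c u =
      (-1 : ℝ) ^ r * (((ν - r).choose κ : ℝ) * β) := by
    rw [← hβ]
    have h1 : ∀ u ∈ range (r + 1), (-1 : ℝ) ^ u * (r.choose u : ℝ) * max (sl ν κ u) c =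
        (-1 : ℝ) ^ u * WW ν κ r c u + c * ((-1 : ℝ) ^ u * (r.choose u : ℝ)) := by
      intro u _
      unfold WW
      have : max (sl ν κ u) c = max (sl ν κ u - c) 0 + c := by
        rcases le_total (sl ν κ u) c with h | h
        · rw [max_eq_right h, max_eq_right (by linarith), zero_add]
        · rw [max_eq_left h, max_eq_left (by linarith)]
          ring
      rw [this]
      ring
    rw [Finset.sum_congr rfl h1, Finset.sum_add_distrib, ← Finset.mul_sum, hbin, mul_zero, add_zero]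
  have hF : ∑ u ∈ range (r + 1), (-1 : ℝ) ^ u * WW ν κ r 0 u = ((ν - r).choose κ : ℝ) := by
    have h1 := fdC r ν (ν - κ) (by omega) (by omega)
    rw [show ν - κ - r = ν - r - κ by omega, Nat.choose_symm (by omega : κ ≤ ν - r)] at h1
    rw [← h1]
    refine Finset.sum_congr rfl fun u _ => ?_
    unfold WW sl
    rw [sub_zero, max_eq_left (Nat.cast_nonneg _)]
    ring
  have hs10 := sl_anti ν κ 0
  have hs21 := sl_anti ν κ 1
  have hcs : c ≤ sl ν κ 2 := hc
  have hWc0 : WW ν κ r c 0 = sl ν κ 0 - c := by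
    unfold WW
    rw [max_eq_left (by linarith)]
    simp
  have hWc1 : WW ν κ r c 1 = r * (sl ν κ 1 - c) := by
    unfold WW
    rw [max_eq_left (by linarith)]
    simp
  have hWc2 : WW ν κ r c 2 = r * (r - 1) / 2 * (sl ν κ 2 - c) := by
    unfold WW
    rw [max_eq_left (by linarith), Nat.cast_choose_two]
  have hW00 : WW ν κ r 0 0 = sl ν κ 0 := by
    unfold WW
    rw [sub_zero, max_eq_left (sl_nonneg _ _ _)]
    simp
  have hW01 : WW ν κ r 0 1 = r * sl ν κ 1 := by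
    unfold WW
    rw [sub_zero, max_eq_left (sl_nonneg _ _ _)]
    simp
  have hW02 : WW ν κ r 0 2 = r * (r - 1) / 2 * sl ν κ 2 := by
    unfold WW
    rw [sub_zero, max_eq_left (sl_nonneg _ _ _), Nat.cast_choose_two]
  have hXb := alt3 r hr3 (WW ν κ r c) (fun u hu => WW_anti hu hν (by omega) (by omega) hc0)
    (WW_nonneg _ _ _ _ _)
  have hX0 := (alt r (WW ν κ r c) (fun u hu => WW_anti hu hν (by omega) (by omega) hc0)
    (WW_nonneg _ _ _ _ _)).1
  have hFb := (alt3 r hr3 (WW ν κ r 0) (fun u hu => WW_anti hu hν (by omega) (by omega) le_rfl)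
    (WW_nonneg _ _ _ _ _)).1
  rw [hF, hW00, hW01, hW02] at hFb
  have hd0 := WW_anti (u := 0) (c := 0) (by omega : 0 < r) hν (by omega) (by omega) le_rfl
  have hd2 := WW_dec (u := 2) (c := 0) (by omega : 2 < r) hν (by omega) (by omega) le_rfl
  rw [hW00, zero_add, hW01] at hd0
  rw [hW02] at hd2
  push_cast at hd2
  have hd3 : (2 + 1) * WW ν κ r 0 3 ≤ r * (r - 1) / 2 * sl ν κ 2 := hd2
  have hrR : (3 : ℝ) ≤ r := by exact_mod_cast hr3
  have hκR : (3 : ℝ) ≤ κ := by exact_mod_cast hκ3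
  have hνR : (r : ℝ) * κ + 1 ≤ ν := by exact_mod_cast hν
  have hD : sl ν κ 0 = (ν.choose κ : ℝ) := by
    unfold sl
    rw [Nat.sub_zero, Nat.choose_symm (by omega : κ ≤ ν)]
  have hDpos : (0 : ℝ) < sl ν κ 0 := by
    rw [hD]
    exact_mod_cast Nat.choose_pos (by omega : κ ≤ ν)
  have hrec0 := sl_rec ν κ 0 (by omega) (by omega)
  have hrec1 := sl_rec ν κ 1 (by omega) (by omega)
  rw [Nat.sub_zero, Nat.sub_zero] at hrec0
  rw [Nat.cast_sub (by omega : 1 ≤ ν), Nat.cast_sub (by omega : 1 ≤ κ), Nat.cast_one] at hrec1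
  have hFpos : (0 : ℝ) < ((ν - r).choose κ : ℝ) := by
    exact_mod_cast Nat.choose_pos (by omega : κ ≤ ν - r)
  have hE : ((ν - r - 1).choose (κ - 1) : ℝ) * ((ν : ℝ) - r) = κ * ((ν - r).choose κ : ℝ) := by
    have h1 := Nat.add_one_mul_choose_eq (ν - r - 1) (κ - 1)
    rw [show ν - r - 1 + 1 = ν - r by omega, show κ - 1 + 1 = κ by omega] at h1
    have h2 : ((ν - r : ℕ) : ℝ) * ((ν - r - 1).choose (κ - 1) : ℝ) = ((ν - r).choose κ : ℝ) * κ := by
      exact_mod_cast h1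
    rw [Nat.cast_sub (by omega : r ≤ ν)] at h2
    linarith
  have hres := fin_ineq (X := ∑ u ∈ range (r + 1), (-1 : ℝ) ^ u * WW ν κ r c u) (β := β) hκR hrR hνR
    hDpos hrec0 hrec1 hX0 ?_ ?_ hFpos hE ?_
  · rw [hD] at hres
    exact hres
  · refine hXb.2.trans ?_
    rw [hWc0, hWc1, hWc2]
    have h1 : 0 ≤ c * (((r : ℝ) - 1) * (r - 2) / 2) := by
      apply mul_nonneg hc0
      have : (0 : ℝ) ≤ r - 1 := by linarith
      have : (0 : ℝ) ≤ r - 2 := by linarith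
      positivity
    have h2 : c * (((r : ℝ) - 1) * (r - 2) / 2) = c - r * c + r * (r - 1) / 2 * c := by ring
    linarith
  · have h1 := WW_nonneg ν κ r 0 2
    rw [hW02] at h1
    linarith
  · rw [hX, mul_pow ((-1 : ℝ) ^ r), ← pow_mul, mul_comm r 2, pow_mul]
    norm_num

end Pool.Agent.P8H21.TI
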